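import Pool.Agent.Lib.MP_1f45fc_nt_SP.Dat

set_option autoImplicit false

/-! MP_1f45fc_nt, sparsity of Perron numbers with a large Parry power: the trace sequences. -/

namespace Pool.Agent.SalemCount

open Polynomial Finset

/-- `β` is a root of a monic integral polynomial of degree `m + 1` with distinct roots, all other
roots have modulus less than `β` and at most `ρ`, where `ρ ^ (m + 1) ≤ B`; `s k` is the `k`-th
power sum of the roots -/
def DatB (c B : ℝ) (m : ℕ) (β : ℝ) (s : ℕ → ℤ) : Prop :=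
  1 < β ∧ β ≤ c ∧ ∃ (ρ : ℝ) (P : ℤ[X]) (z : Fin (m + 1) → ℂ), 1 ≤ ρ ∧ ρ ^ (m + 1) ≤ B ∧
    RootsOf P z ∧ Function.Injective z ∧ z 0 = β ∧ (∀ i : Fin m, ‖z i.succ‖ ≤ ρ) ∧
    (∀ i : Fin m, ‖z i.succ‖ < β) ∧ ∀ k, ps z k = s k

theorem norm_ps_le_pow {m : ℕ} (w : Fin m → ℂ) {ρ : ℝ} (hw : ∀ i, ‖w i‖ ≤ ρ) (k : ℕ) :
    ‖ps w k‖ ≤ m * ρ ^ k := by
  unfold ps
  refine (norm_sum_le _ _).trans ?_
  have h1 : ∑ i : Fin m, ‖w i ^ k‖ ≤ ∑ _i : Fin m, ρ ^ k :=
    Finset.sum_le_sum fun i _ => by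
      rw [norm_pow]
      exact pow_le_pow_left₀ (norm_nonneg _) (hw i) k
  refine h1.trans ?_
  simp

/-- trivial bound -/
theorem DatB.abs_le {c B : ℝ} {m : ℕ} {β : ℝ} {s : ℕ → ℤ} (h : DatB c B m β s) (k : ℕ)
    (hk : k ≤ m + 1) : |(s k : ℝ) - β ^ k| ≤ ((m + 1 : ℕ) : ℝ) * B := by
  obtain ⟨_, _, ρ, P, z, hρ, hρB, _, _, h0, hz, _, hs⟩ := h
  rw [← ps_tail h0 hs k]
  refine (norm_ps_le_pow _ hz k).trans ?_
  have h1 : ρ ^ k ≤ B := (pow_le_pow_right₀ hρ hk).trans hρB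
  have h2 : (m : ℝ) ≤ ((m + 1 : ℕ) : ℝ) := by push_cast; linarith
  exact mul_le_mul h2 h1 (by positivity) (by positivity)

/-- congruences -/
theorem DatB.congr {c B : ℝ} {m : ℕ} {β β' : ℝ} {s s' : ℕ → ℤ} (h : DatB c B m β s)
    (h' : DatB c B m β' s') (k : ℕ) (hk : 1 ≤ k) (hag : ∀ j, 1 ≤ j → j < k → s j = s' j) :
    (k : ℤ) ∣ s k - s' k := by
  obtain ⟨_, _, _, P, z, _, _, hP, _, _, _, _, hs⟩ := h
  obtain ⟨_, _, _, P', z', _, _, hP', _, _, _, _, hs'⟩ := h'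
  refine ps_congr hP hP' k hk (fun j h1 h2 => ?_) _ _ (hs k) (hs' k)
  rw [hs, hs', hag j h1 h2]

theorem root_mem {m : ℕ} {z z' : Fin m → ℂ}
    (h1 : (∏ i, (X - C (z i))) = ∏ i, (X - C (z' i))) (i0 : Fin m) : ∃ i, z i0 = z' i := by
  have h2 := congrArg (Polynomial.eval (z i0)) h1
  rw [eval_prod, eval_prod] at h2
  have h3 : ∏ i, eval (z i0) (X - C (z i)) = 0 :=
    Finset.prod_eq_zero (mem_univ i0) (by simp)
  rw [h3] at h2
  obtain ⟨i, _, hi⟩ := Finset.prod_eq_zero_iff.1 h2.symm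
  rw [eval_sub, eval_X, eval_C, sub_eq_zero] at hi
  exact ⟨i, hi⟩

/-- determination -/
theorem DatB.det {c B : ℝ} {m : ℕ} {β β' : ℝ} {s s' : ℕ → ℤ} (h : DatB c B m β s)
    (h' : DatB c B m β' s') (hag : ∀ j, 1 ≤ j → j ≤ m + 1 → s j = s' j) : β = β' := by
  obtain ⟨hβ, _, _, P, z, _, _, hP, _, h0, _, hz, hs⟩ := h
  obtain ⟨hβ', _, _, P', z', _, _, hP', _, h0', _, hz', hs'⟩ := h'
  have hPP : P = P' := eq_of_ps hP hP' fun j h1 h2 => by rw [hs, hs', hag j h1 h2]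
  subst hPP
  have h1 : (∏ i, (X - C (z i))) = ∏ i, (X - C (z' i)) := by
    rw [← hP, ← hP']
  have key : ∀ (w w' : Fin (m + 1) → ℂ) (b b' : ℝ), 1 < b →
      (∏ i, (X - C (w i))) = ∏ i, (X - C (w' i)) → w 0 = b → w' 0 = b' →
      (∀ i : Fin m, ‖w' i.succ‖ < b') → b ≤ b' := by
    intro w w' b b' hb hw h0 h0' hlt
    obtain ⟨i, hi⟩ := root_mem hw 0
    rcases Fin.eq_zero_or_eq_succ i with rfl | ⟨j, rfl⟩
    · rw [h0, h0'] at hi
      have : b = b' := by exact_mod_cast hi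
      exact this.le
    · have h4 := hlt j
      rw [← hi, h0, Complex.norm_real, Real.norm_eq_abs, abs_of_pos (by linarith)] at h4
      exact h4.le
  exact le_antisymm (key z z' β β' hβ h1 h0 h0' hz') (key z' z β' β hβ' h1.symm h0' h0 hz)

/-- scaling of the logarithmic energy -/
theorem neg_le_scale {m : ℕ} (z : Fin m → ℂ) (hinj : Function.Injective z) {ρ : ℝ}
    (hρ : 1 ≤ ρ) : -le (fun i => z i / (ρ : ℂ)) ≤ -le z + (m : ℝ) ^ 2 * Real.log ρ := by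
  have hρ0 : 0 < ρ := by linarith
  have hlog : 0 ≤ Real.log ρ := Real.log_nonneg hρ
  have h1 : ∀ i : Fin m, ∀ j ∈ univ.erase i,
      Real.log ‖z i / (ρ : ℂ) - z j / (ρ : ℂ)‖ = Real.log ‖z i - z j‖ - Real.log ρ := by
    intro i j hj
    have h2 : z i / (ρ : ℂ) - z j / (ρ : ℂ) = (z i - z j) / (ρ : ℂ) := by ring
    have h3 : 0 < ‖z i - z j‖ := norm_pos_iff.2 (sub_ne_zero.2 fun h =>
      (Finset.ne_of_mem_erase hj) (hinj h).symm)
    rw [h2, norm_div, Complex.norm_real, Real.norm_eq_abs, abs_of_pos hρ0,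
      Real.log_div h3.ne' hρ0.ne']
  have h4 : le (fun i => z i / (ρ : ℂ)) = le z - ∑ i : Fin m, ∑ _j ∈ univ.erase i, Real.log ρ := by
    unfold le
    rw [← Finset.sum_sub_distrib]
    refine Finset.sum_congr rfl fun i _ => ?_
    rw [← Finset.sum_sub_distrib]
    exact Finset.sum_congr rfl fun j hj => h1 i j hj
  have h5 : ∑ i : Fin m, ∑ _j ∈ univ.erase i, Real.log ρ ≤ (m : ℝ) ^ 2 * Real.log ρ := by
    have h6 : ∀ i ∈ (univ : Finset (Fin m)), ∑ _j ∈ univ.erase i, Real.log ρ ≤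
        (m : ℝ) * Real.log ρ := by
      intro i _
      rw [Finset.sum_const, nsmul_eq_mul]
      refine mul_le_mul_of_nonneg_right ?_ hlog
      have h7 : (univ.erase i).card ≤ m := by
        refine (Finset.card_le_card (Finset.erase_subset _ _)).trans ?_
        rw [card_univ, Fintype.card_fin]
      exact_mod_cast h7
    refine (Finset.sum_le_sum h6).trans (le_of_eq ?_)
    rw [Finset.sum_const, card_univ, Fintype.card_fin, nsmul_eq_mul]
    ring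
  rw [h4]
  linarith

/-- the energy bound -/
noncomputable def EnB (c B : ℝ) (n : ℕ) : ℝ :=
  3 * B ^ 2 * (n * Real.log (n + 1) + n / 2 + 2 * n * Real.log (2 * c) + n * Real.log B)

theorem DatB.one_le {c B : ℝ} {m : ℕ} {β : ℝ} {s : ℕ → ℤ} (h : DatB c B m β s) : 1 ≤ B := by
  obtain ⟨_, _, ρ, _, _, hρ, hρB, _⟩ := h
  exact (one_le_pow₀ hρ).trans hρB

theorem DatB.energy_le {c B : ℝ} {m : ℕ} {β : ℝ} {s : ℕ → ℤ} (h : DatB c B m β s) :
    ∑ k ∈ Icc 1 (m + 1), ((s k : ℝ) - β ^ k) ^ 2 / k ≤ EnB c B (m + 1) := by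
  have hB1 := h.one_le
  obtain ⟨hβ, hβc, ρ, P, z, hρ, hρB, hP, hinj, h0, hz, hzβ, hs⟩ := h
  have hρ0 : 0 < ρ := by linarith
  obtain ⟨v, hv⟩ : ∃ v : Fin m → ℂ, v = fun i => z i.succ := ⟨_, rfl⟩
  have hvinj : Function.Injective v := by
    rw [hv]
    exact fun i j hij => Fin.succ_injective _ (hinj hij)
  obtain ⟨w, hw⟩ : ∃ w : Fin m → ℂ, w = fun i => v i / (ρ : ℂ) := ⟨_, rfl⟩
  have hρC : (ρ : ℂ) ≠ 0 := by exact_mod_cast hρ0.ne'
  have hwinj : Function.Injective w := by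
    rw [hw]
    intro i j hij
    simp only at hij
    rw [div_left_inj' hρC] at hij
    exact hvinj hij
  have hw1 : ∀ i, ‖w i‖ ≤ 1 := by
    intro i
    rw [hw]
    simp only
    rw [norm_div, Complex.norm_real, Real.norm_eq_abs, abs_of_pos hρ0, div_le_one hρ0, hv]
    exact hz i
  have hn0 : (0 : ℝ) < (m : ℝ) + 1 := by positivity
  obtain ⟨r, hr⟩ : ∃ r : ℝ, r = ((m : ℝ) + 1) / ((m : ℝ) + 2) := ⟨_, rfl⟩
  have hr0 : 0 < r := by rw [hr]; positivity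
  have hr1 : r < 1 := by
    rw [hr, div_lt_one (by positivity)]
    linarith
  have h1 := energy w hw1 hwinj r hr0 hr1 (m + 1)
  have hm0 : (0 : ℝ) ≤ m := by positivity
  have hlogρ : 0 ≤ Real.log ρ := Real.log_nonneg hρ
  have hlogB : ((m : ℝ) + 1) * Real.log ρ ≤ Real.log B := by
    have h2 := Real.log_le_log (pow_pos hρ0 (m + 1)) hρB
    rw [Real.log_pow] at h2
    push_cast at h2
    exact h2
  have hle : -le w ≤ 2 * (m * Real.log (2 * c)) + m * Real.log B := by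
    have h2 := le_nonneg hP hinj
    rw [le_succ, ← hv] at h2
    have h3 : ∑ i : Fin m, Real.log ‖z 0 - z i.succ‖ ≤ ∑ _i : Fin m, Real.log (2 * c) := by
      refine Finset.sum_le_sum fun i _ => ?_
      have h4 : ‖z 0 - z i.succ‖ ≤ 2 * c := by
        refine (norm_sub_le _ _).trans ?_
        rw [h0, Complex.norm_real, Real.norm_eq_abs, abs_of_pos (by linarith)]
        have := hzβ i
        linarith
      have h5 : 0 < ‖z 0 - z i.succ‖ := norm_pos_iff.2 (sub_ne_zero.2 fun h =>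
        absurd (hinj h) (Fin.succ_ne_zero i).symm)
      exact Real.log_le_log h5 h4
    rw [Finset.sum_const, card_univ, Fintype.card_fin, nsmul_eq_mul] at h3
    have h6 := neg_le_scale v hvinj hρ
    rw [← hw] at h6
    have h7 : (m : ℝ) ^ 2 * Real.log ρ ≤ m * Real.log B := by
      have h8 : (m : ℝ) * Real.log ρ ≤ Real.log B := by linarith
      have h9 := mul_le_mul_of_nonneg_left h8 hm0
      linarith
    linarith
  have hlog1 : 1 / (1 - r) = (m : ℝ) + 2 := by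
    rw [hr]
    field_simp
    ring
  have hlog2 : Real.log (1 / r) ≤ 1 / ((m : ℝ) + 1) := by
    have h2 : 1 / r = 1 + 1 / ((m : ℝ) + 1) := by
      rw [hr]
      field_simp
      ring
    rw [h2]
    have := Real.log_le_sub_one_of_pos (show 0 < 1 + 1 / ((m : ℝ) + 1) by positivity)
    linarith
  have hlogc : 0 ≤ Real.log (2 * c) := Real.log_nonneg (by linarith)
  have hlogB0 : 0 ≤ Real.log B := Real.log_nonneg hB1
  have hlogm : 0 ≤ Real.log ((m : ℝ) + 2) := Real.log_nonneg (by linarith)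
  have hRHS : (m : ℝ) * Real.log (1 / (1 - r)) + (m : ℝ) ^ 2 / 2 * Real.log (1 / r) - le w ≤
      ((m + 1 : ℕ) : ℝ) * Real.log (((m + 1 : ℕ) : ℝ) + 1) + ((m + 1 : ℕ) : ℝ) / 2 +
        2 * ((m + 1 : ℕ) : ℝ) * Real.log (2 * c) + ((m + 1 : ℕ) : ℝ) * Real.log B := by
    rw [hlog1]
    push_cast
    have h2 : (m : ℝ) * Real.log ((m : ℝ) + 2) ≤ ((m : ℝ) + 1) * Real.log ((m : ℝ) + 1 + 1) := by
      have : (m : ℝ) + 1 + 1 = (m : ℝ) + 2 := by ring
      rw [this]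
      nlinarith
    have h3 : (m : ℝ) ^ 2 / 2 * Real.log (1 / r) ≤ ((m : ℝ) + 1) / 2 := by
      have h4 : (m : ℝ) ^ 2 / 2 * Real.log (1 / r) ≤ (m : ℝ) ^ 2 / 2 * (1 / ((m : ℝ) + 1)) :=
        mul_le_mul_of_nonneg_left hlog2 (by positivity)
      refine h4.trans ?_
      rw [mul_one_div, div_div, div_le_div_iff₀ (by positivity) (by positivity)]
      nlinarith
    have h5 : 2 * ((m : ℝ) * Real.log (2 * c)) ≤ 2 * ((m : ℝ) + 1) * Real.log (2 * c) := by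
      nlinarith
    have h6 : (m : ℝ) * Real.log B ≤ ((m : ℝ) + 1) * Real.log B := by
      nlinarith
    linarith
  have hrk : ∀ k ∈ Icc 1 (m + 1), (1 / 3 : ℝ) ≤ r ^ k := by
    intro k hk
    rw [mem_Icc] at hk
    have h2 : r ^ (m + 1) ≤ r ^ k := pow_le_pow_of_le_one hr0.le hr1.le hk.2
    refine le_trans ?_ h2
    have h3 : r⁻¹ ≤ Real.exp (1 / ((m : ℝ) + 1)) := by
      have h4 : r⁻¹ = 1 / ((m : ℝ) + 1) + 1 := by
        rw [hr]
        field_simp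
        ring
      rw [h4]
      exact Real.add_one_le_exp _
    have h5 : (r⁻¹) ^ (m + 1) ≤ Real.exp 1 := by
      refine (pow_le_pow_left₀ (by positivity) h3 (m + 1)).trans (le_of_eq ?_)
      rw [← Real.exp_nat_mul]
      congr 1
      push_cast
      field_simp
    rw [inv_pow] at h5
    have h6 : Real.exp 1 ≤ 3 := by
      have := Real.exp_one_lt_d9
      linarith
    have h7 : 0 < r ^ (m + 1) := by positivity
    have h8 := h5.trans h6
    rw [inv_le_comm₀ h7 (by norm_num)] at h8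
    rw [one_div]
    exact h8
  have hterm : ∀ k ∈ Icc 1 (m + 1), ((s k : ℝ) - β ^ k) ^ 2 / k ≤
      3 * B ^ 2 * (r ^ k * ‖∑ i, w i ^ k‖ ^ 2 / k) := by
    intro k hk
    have hk' := hk
    rw [mem_Icc] at hk'
    have h2 : ‖∑ i, v i ^ k‖ = |(s k : ℝ) - β ^ k| := by
      rw [hv]
      exact ps_tail h0 hs k
    have h2' : ‖∑ i, v i ^ k‖ = ρ ^ k * ‖∑ i, w i ^ k‖ := by
      have e1 : ∑ i, v i ^ k = (ρ : ℂ) ^ k * ∑ i, w i ^ k := by
        rw [Finset.mul_sum, hw]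
        refine Finset.sum_congr rfl fun i _ => ?_
        simp only
        rw [div_pow, mul_div_cancel₀ _ (pow_ne_zero k hρC)]
      rw [e1, norm_mul, norm_pow, Complex.norm_real, Real.norm_eq_abs, abs_of_pos hρ0]
    have hρk : ρ ^ k ≤ B := (pow_le_pow_right₀ hρ hk'.2).trans hρB
    have h3 := hrk k hk
    obtain ⟨y, hy⟩ : ∃ y : ℝ, y = ‖∑ i, w i ^ k‖ := ⟨_, rfl⟩
    rw [← hy] at h2' ⊢
    have hy0 : 0 ≤ y := by rw [hy]; exact norm_nonneg _
    have h4 : ((s k : ℝ) - β ^ k) ^ 2 = (ρ ^ k) ^ 2 * y ^ 2 := by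
      rw [← sq_abs, ← h2, h2']
      ring
    rw [h4]
    have h5 : (ρ ^ k) ^ 2 ≤ B ^ 2 := pow_le_pow_left₀ (by positivity) hρk 2
    have h6 : 0 ≤ y ^ 2 / (k : ℝ) := by positivity
    calc (ρ ^ k) ^ 2 * y ^ 2 / k = 3 * (1 / 3 * ((ρ ^ k) ^ 2 * (y ^ 2 / k))) := by ring
      _ ≤ 3 * (r ^ k * (B ^ 2 * (y ^ 2 / k))) := by
        refine mul_le_mul_of_nonneg_left ?_ (by norm_num)
        exact mul_le_mul h3 (mul_le_mul_of_nonneg_right h5 h6) (by positivity) (by positivity)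
      _ = 3 * B ^ 2 * (r ^ k * y ^ 2 / k) := by ring
  calc ∑ k ∈ Icc 1 (m + 1), ((s k : ℝ) - β ^ k) ^ 2 / k
      ≤ ∑ k ∈ Icc 1 (m + 1), 3 * B ^ 2 * (r ^ k * ‖∑ i, w i ^ k‖ ^ 2 / k) :=
        Finset.sum_le_sum hterm
    _ = 3 * B ^ 2 * ∑ k ∈ Icc 1 (m + 1), r ^ k * ‖∑ i, w i ^ k‖ ^ 2 / k := by rw [Finset.mul_sum]
    _ ≤ EnB c B (m + 1) := by
        unfold EnB
        exact mul_le_mul_of_nonneg_left (h1.trans hRHS) (by positivity)

end Pool.Agent.SalemCount
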