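import Pool.Agent.Lib.MP_1f45fc_nt_SP.Main
import Pool.Agent.Lib.MP_1f45fc_nt_SQ.DatB

set_option autoImplicit false

/-! MP_1f45fc_nt, sparsity of Perron numbers with a large Parry power: the number of trace
sequences. -/

namespace Pool.Agent.SalemCount

open Finset

/-- in the second case `k` is at least `3` -/
theorem three_leB {c bt Y : ℝ} {k : ℕ} (hc : 1 ≤ c) (hY : 1 ≤ Y) (h0 : 0 ≤ bt) (hbt : bt ≤ c)
    (h : ¬ bt ^ k ≤ 16 * c ^ 2 * Y) : 3 ≤ k := by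
  by_contra hk
  apply h
  have h1 : bt ^ k ≤ c ^ 2 := (pow_le_pow_left₀ h0 hbt k).trans (pow_le_pow_right₀ hc (by omega))
  have h2 : 0 ≤ c ^ 2 := by positivity
  nlinarith

/-- the error of the prediction -/
theorem pr_sqB {c B : ℝ} (hc : 1 ≤ c) {m : ℕ} {β : ℝ} {s : ℕ → ℤ} (h : DatB c B m β s) {G : ℕ}
    {bt Y : ℝ} (hY : Y = ((m + 1 : ℕ) : ℝ) * B)
    (hG : 2 * ((m + 1 : ℕ) : ℝ) * (16 * c ^ 2 * Y) ≤ G) (h1 : 1 ≤ bt)
    (h2 : bt ≤ β) (h3 : β ≤ bt + 1 / G) (k : ℕ) (hk : k ≤ m + 1) :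
    ((s k : ℝ) - pr (16 * c ^ 2 * Y) bt s k) ^ 2 ≤
      48 * c ^ 4 * (((s k : ℝ) - β ^ k) ^ 2 + 1 +
        if 3 ≤ k then ((s (k - 1) : ℝ) - β ^ (k - 1)) ^ 2 +
          ((s (k - 2) : ℝ) - β ^ (k - 2)) ^ 2 else 0) := by
  have hB1 := h.one_le
  have hn0 : (1 : ℝ) ≤ ((m + 1 : ℕ) : ℝ) := by exact_mod_cast Nat.succ_le_succ (Nat.zero_le m)
  have hY1 : 1 ≤ Y := by
    rw [hY]
    nlinarith
  have hc2 : 1 ≤ c ^ 2 := one_le_pow₀ hc
  have hc4 : 1 ≤ c ^ 4 := one_le_pow₀ hc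
  have hβ : 1 < β := h.1
  have hβc : β ≤ c := h.2.1
  unfold pr
  by_cases hcase : bt ^ k ≤ 16 * c ^ 2 * Y
  · rw [if_pos hcase]
    have hT : (16 : ℝ) ≤ 16 * c ^ 2 * Y := by nlinarith
    have hg := grid hG hT (Nat.succ_le_succ (Nat.zero_le m)) hk h1 h2 h3 hcase
    have e1 : (s k : ℝ) - bt ^ k = ((s k : ℝ) - β ^ k) + (β ^ k - bt ^ k) := by ring
    have e2 : (β ^ k - bt ^ k) ^ 2 ≤ 1 := by
      rw [← sq_abs]
      exact pow_le_one₀ (abs_nonneg _) hg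
    have e3 : ((s k : ℝ) - bt ^ k) ^ 2 ≤ 2 * (((s k : ℝ) - β ^ k) ^ 2 + 1) := by
      rw [e1]
      nlinarith [sq_nonneg (((s k : ℝ) - β ^ k) - (β ^ k - bt ^ k))]
    have e4 : (0 : ℝ) ≤ if 3 ≤ k then ((s (k - 1) : ℝ) - β ^ (k - 1)) ^ 2 +
        ((s (k - 2) : ℝ) - β ^ (k - 2)) ^ 2 else 0 := by
      split_ifs
      · positivity
      · exact le_rfl
    have e5 : 0 ≤ ((s k : ℝ) - β ^ k) ^ 2 := sq_nonneg _
    have e6 : 0 ≤ (c ^ 4 - 1) * (((s k : ℝ) - β ^ k) ^ 2 + 1) :=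
      mul_nonneg (by linarith) (by linarith)
    have e7 : 0 ≤ c ^ 4 * (if 3 ≤ k then ((s (k - 1) : ℝ) - β ^ (k - 1)) ^ 2 +
        ((s (k - 2) : ℝ) - β ^ (k - 2)) ^ 2 else 0) := mul_nonneg (by linarith) e4
    nlinarith
  · rw [if_neg hcase]
    have hk3 := three_leB hc hY1 (by linarith) (h2.trans hβc) hcase
    rw [if_pos hk3]
    push Not at hcase
    obtain ⟨j, rfl⟩ : ∃ j, k = j + 2 := ⟨k - 2, by omega⟩
    have i1 : j + 2 - 1 = j + 1 := by omega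
    have i2 : j + 2 - 2 = j := by omega
    rw [i1, i2]
    have hbk : bt ^ (j + 2) ≤ β ^ (j + 2) := pow_le_pow_left₀ (by linarith) h2 _
    have hβj : 16 * Y ≤ β ^ j := by
      have g1 : 16 * c ^ 2 * Y < β ^ j * β ^ 2 := by
        rw [← pow_add]
        linarith
      have g2 : β ^ 2 ≤ c ^ 2 := pow_le_pow_left₀ (by linarith) hβc 2
      have g3 : β ^ j * β ^ 2 ≤ β ^ j * c ^ 2 := mul_le_mul_of_nonneg_left g2 (by positivity)
      have g4 : c ^ 2 * (16 * Y) ≤ c ^ 2 * β ^ j := by linarith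
      exact le_of_mul_le_mul_left g4 (by positivity)
    have a0 := h.abs_le j (by omega)
    have a1 := h.abs_le (j + 1) (by omega)
    have a2 := h.abs_le (j + 2) hk
    rw [← hY] at a0 a1 a2
    have hp := predict (b := β ^ j) (N := Y) hβ hβc (by linarith)
      (by positivity) hβj a0 a1 a2
    have e1 : β ^ 2 * β ^ j + ((s (j + 2) : ℝ) - β ^ (j + 2)) = s (j + 2) := by ring
    have e2 : β * β ^ j + ((s (j + 1) : ℝ) - β ^ (j + 1)) = s (j + 1) := by ring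
    have e3 : β ^ j + ((s j : ℝ) - β ^ j) = s j := by ring
    rw [e1, e2, e3] at hp
    have hsq := pow_le_pow_left₀ (abs_nonneg _) hp 2
    rw [sq_abs] at hsq
    refine hsq.trans ?_
    obtain ⟨x, hx⟩ : ∃ x, x = |(s j : ℝ) - β ^ j| := ⟨_, rfl⟩
    obtain ⟨y, hy⟩ : ∃ y, y = |(s (j + 1) : ℝ) - β ^ (j + 1)| := ⟨_, rfl⟩
    obtain ⟨z, hz⟩ : ∃ z, z = |(s (j + 2) : ℝ) - β ^ (j + 2)| := ⟨_, rfl⟩
    rw [← sq_abs ((s j : ℝ) - β ^ j), ← sq_abs ((s (j + 1) : ℝ) - β ^ (j + 1)),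
      ← sq_abs ((s (j + 2) : ℝ) - β ^ (j + 2)), ← hx, ← hy, ← hz]
    have e4 : (4 * c ^ 2 * (x + y + z)) ^ 2 = 16 * c ^ 4 * (x + y + z) ^ 2 := by ring
    have e5 : (x + y + z) ^ 2 ≤ 3 * (x ^ 2 + y ^ 2 + z ^ 2) := by
      nlinarith [sq_nonneg (x - y), sq_nonneg (y - z), sq_nonneg (x - z)]
    rw [e4]
    have e6 : 16 * c ^ 4 * (x + y + z) ^ 2 ≤ 16 * c ^ 4 * (3 * (x ^ 2 + y ^ 2 + z ^ 2)) :=
      mul_le_mul_of_nonneg_left e5 (by positivity)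
    refine e6.trans ?_
    have e7 : 0 ≤ 48 * c ^ 4 := by positivity
    nlinarith

/-- one term of the quadratic form of the code -/
theorem cd_termB {c B : ℝ} (hc : 1 ≤ c) {m : ℕ} {β : ℝ} {s : ℕ → ℤ} (h : DatB c B m β s) {G : ℕ}
    {bt Y : ℝ} (hY : Y = ((m + 1 : ℕ) : ℝ) * B)
    (hG : 2 * ((m + 1 : ℕ) : ℝ) * (16 * c ^ 2 * Y) ≤ G) (h1 : 1 ≤ bt)
    (h2 : bt ≤ β) (h3 : β ≤ bt + 1 / G) (k : ℕ) (hk1 : 1 ≤ k) (hk : k ≤ m + 1) :
    (k : ℝ) * (cd (16 * c ^ 2 * Y) bt s k : ℝ) ^ 2 ≤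
      192 * c ^ 4 * (((s k : ℝ) - β ^ k) ^ 2 / k + 1 +
        if 3 ≤ k then ((s (k - 1) : ℝ) - β ^ (k - 1)) ^ 2 / ((k - 1 : ℕ) : ℝ) +
          ((s (k - 2) : ℝ) - β ^ (k - 2)) ^ 2 / ((k - 2 : ℕ) : ℝ) else 0) := by
  have hk0 : (1 : ℝ) ≤ k := by exact_mod_cast hk1
  have hs := pr_sqB hc h hY hG h1 h2 h3 k hk
  obtain ⟨u, hu⟩ : ∃ u, u = (s k : ℝ) - pr (16 * c ^ 2 * Y) bt s k := ⟨_, rfl⟩
  unfold cd
  rw [← hu] at hs ⊢
  have hr := round_le (u / k)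
  have hr2 := pow_le_pow_left₀ (abs_nonneg _) hr 2
  rw [sq_abs, mul_pow, sq_abs] at hr2
  have hstep : (k : ℝ) * ((round (u / k) : ℤ) : ℝ) ^ 2 ≤ 4 * (u ^ 2 / k) := by
    have e1 : (k : ℝ) * ((2 : ℝ) ^ 2 * (u / k) ^ 2) = 4 * (u ^ 2 / k) := by
      field_simp
      ring
    rw [← e1]
    exact mul_le_mul_of_nonneg_left hr2 (by positivity)
  refine hstep.trans ?_
  have hdiv : u ^ 2 / k ≤ 48 * c ^ 4 * (((s k : ℝ) - β ^ k) ^ 2 + 1 +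
        if 3 ≤ k then ((s (k - 1) : ℝ) - β ^ (k - 1)) ^ 2 +
          ((s (k - 2) : ℝ) - β ^ (k - 2)) ^ 2 else 0) / k :=
    div_le_div_of_nonneg_right hs (by positivity)
  have hfin : 48 * c ^ 4 * (((s k : ℝ) - β ^ k) ^ 2 + 1 +
        if 3 ≤ k then ((s (k - 1) : ℝ) - β ^ (k - 1)) ^ 2 +
          ((s (k - 2) : ℝ) - β ^ (k - 2)) ^ 2 else 0) / k ≤
      48 * c ^ 4 * (((s k : ℝ) - β ^ k) ^ 2 / k + 1 +
        if 3 ≤ k then ((s (k - 1) : ℝ) - β ^ (k - 1)) ^ 2 / ((k - 1 : ℕ) : ℝ) +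
          ((s (k - 2) : ℝ) - β ^ (k - 2)) ^ 2 / ((k - 2 : ℕ) : ℝ) else 0) := by
    rw [mul_div_assoc]
    refine mul_le_mul_of_nonneg_left ?_ (by positivity)
    have g1 : (1 : ℝ) / k ≤ 1 := by
      rw [div_le_one (by linarith)]
      exact hk0
    by_cases hk3 : 3 ≤ k
    · rw [if_pos hk3, if_pos hk3, add_div, add_div, add_div]
      have g2 : ((s (k - 1) : ℝ) - β ^ (k - 1)) ^ 2 / k ≤
          ((s (k - 1) : ℝ) - β ^ (k - 1)) ^ 2 / ((k - 1 : ℕ) : ℝ) := by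
        refine div_le_div_of_nonneg_left (sq_nonneg _) ?_ ?_
        · exact_mod_cast (by omega : 0 < k - 1)
        · exact_mod_cast (by omega : k - 1 ≤ k)
      have g3 : ((s (k - 2) : ℝ) - β ^ (k - 2)) ^ 2 / k ≤
          ((s (k - 2) : ℝ) - β ^ (k - 2)) ^ 2 / ((k - 2 : ℕ) : ℝ) := by
        refine div_le_div_of_nonneg_left (sq_nonneg _) ?_ ?_
        · exact_mod_cast (by omega : 0 < k - 2)
        · exact_mod_cast (by omega : k - 2 ≤ k)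
      linarith
    · rw [if_neg hk3, if_neg hk3, add_zero, add_zero, add_div]
      linarith
  linarith

/-- the quadratic form of the code -/
theorem cd_sumB {c B : ℝ} (hc : 1 ≤ c) {m : ℕ} {β : ℝ} {s : ℕ → ℤ} (h : DatB c B m β s) {G : ℕ}
    {bt Y : ℝ} (hY : Y = ((m + 1 : ℕ) : ℝ) * B)
    (hG : 2 * ((m + 1 : ℕ) : ℝ) * (16 * c ^ 2 * Y) ≤ G) (h1 : 1 ≤ bt)
    (h2 : bt ≤ β) (h3 : β ≤ bt + 1 / G) :
    ∑ k ∈ Icc 1 (m + 1), (k : ℝ) * (cd (16 * c ^ 2 * Y) bt s k : ℝ) ^ 2 ≤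
      192 * c ^ 4 * (3 * EnB c B (m + 1) + ((m + 1 : ℕ) : ℝ)) := by
  obtain ⟨f, hf⟩ : ∃ f : ℕ → ℝ, f = fun k => ((s k : ℝ) - β ^ k) ^ 2 / (k : ℝ) := ⟨_, rfl⟩
  have hf0 : ∀ k, 0 ≤ f k := fun k => by
    rw [hf]
    positivity
  have hE : ∑ k ∈ Icc 1 (m + 1), f k ≤ EnB c B (m + 1) := by
    rw [hf]
    exact h.energy_le
  have hterm : ∀ k ∈ Icc 1 (m + 1),
      (k : ℝ) * (cd (16 * c ^ 2 * Y) bt s k : ℝ) ^ 2 ≤
      192 * c ^ 4 * (f k + 1 + if 3 ≤ k then f (k - 1) + f (k - 2) else 0) := by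
    intro k hk
    rw [mem_Icc] at hk
    rw [hf]
    exact cd_termB hc h hY hG h1 h2 h3 k hk.1 hk.2
  refine (Finset.sum_le_sum hterm).trans ?_
  rw [← Finset.mul_sum]
  refine mul_le_mul_of_nonneg_left ?_ (by positivity)
  rw [Finset.sum_add_distrib, Finset.sum_add_distrib, Finset.sum_const, Nat.card_Icc,
    nsmul_eq_mul]
  have h4 : ∑ k ∈ Icc 1 (m + 1), (if 3 ≤ k then f (k - 1) + f (k - 2) else 0) =
      ∑ k ∈ Icc 3 (m + 1), (f (k - 1) + f (k - 2)) := by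
    rw [← Finset.sum_filter]
    congr 1
    ext k
    rw [mem_filter, mem_Icc, mem_Icc]
    omega
  rw [h4, Finset.sum_add_distrib]
  have h5 := sum_shift f hf0 1 (m + 1) (by norm_num)
  have h6 := sum_shift f hf0 2 (m + 1) le_rfl
  have h7 : ((m + 1 + 1 - 1 : ℕ) : ℝ) = ((m + 1 : ℕ) : ℝ) := by
    congr 1
  rw [h7]
  linarith

/-- the code determines the number -/
theorem cd_injB {c B : ℝ} (hc : 1 ≤ c) {m : ℕ} {β β' : ℝ} {s s' : ℕ → ℤ} (h : DatB c B m β s)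
    (h' : DatB c B m β' s') {bt Y : ℝ} (hY : 1 ≤ Y) (h1 : 1 ≤ bt) (h2 : bt ≤ β)
    (hcd : ∀ k, 1 ≤ k → k ≤ m + 1 → cd (16 * c ^ 2 * Y) bt s k =
      cd (16 * c ^ 2 * Y) bt s' k) : β = β' := by
  have key : ∀ k, 1 ≤ k → k ≤ m + 1 → s k = s' k := by
    intro k
    induction k using Nat.strong_induction_on with
    | _ k ih =>
      intro hk1 hk
      have hpr : pr (16 * c ^ 2 * Y) bt s k = pr (16 * c ^ 2 * Y) bt s' k := by
        unfold pr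
        by_cases hcase : bt ^ k ≤ 16 * c ^ 2 * Y
        · rw [if_pos hcase, if_pos hcase]
        · rw [if_neg hcase, if_neg hcase]
          have hk3 := three_leB hc hY (by linarith) (h2.trans h.2.1) hcase
          rw [ih (k - 1) (by omega) (by omega) (by omega),
            ih (k - 2) (by omega) (by omega) (by omega)]
      obtain ⟨d, hd⟩ := h.congr h' k hk1 fun j hj1 hj => ih j hj hj1 (by omega)
      have hc1 := hcd k hk1 hk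
      unfold cd at hc1
      rw [← hpr] at hc1
      have hk0 : (k : ℝ) ≠ 0 := by
        have : (0 : ℝ) < k := by exact_mod_cast hk1
        exact this.ne'
      have hsk : (s k : ℝ) = s' k + k * d := by
        have : s k = s' k + k * d := by linarith
        rw [this]
        push_cast
        ring
      obtain ⟨p, hp⟩ : ∃ p, p = pr (16 * c ^ 2 * Y) bt s k := ⟨_, rfl⟩
      rw [← hp] at hc1
      have hdiv : ((s k : ℝ) - p) / k = ((s' k : ℝ) - p) / k + (d : ℤ) := by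
        rw [hsk]
        field_simp
        ring
      rw [hdiv, round_add_intCast] at hc1
      have hd0 : d = 0 := by linarith
      rw [hd0, mul_zero] at hd
      linarith
  exact h.det h' key

/-- the number of data of given degree -/
theorem card_datB {c B : ℝ} (hc : 1 ≤ c) (hB : 1 ≤ B) (m : ℕ) (T : Finset ℝ) (s : ℝ → ℕ → ℤ)
    (hT : ∀ β ∈ T, DatB c B m β (s β)) :
    (T.card : ℝ) ≤ ((⌈2 * ((m + 1 : ℕ) : ℝ) * (16 * c ^ 2 * (((m + 1 : ℕ) : ℝ) * B))⌉₊ : ℝ) * c +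
      1) * Real.exp (11 * Real.sqrt (192 * c ^ 4 * (3 * EnB c B (m + 1) +
        ((m + 1 : ℕ) : ℝ)))) := by
  obtain ⟨Y, hY⟩ : ∃ Y : ℝ, Y = ((m + 1 : ℕ) : ℝ) * B := ⟨_, rfl⟩
  rw [← hY]
  obtain ⟨G, hG0⟩ : ∃ G : ℕ, G = ⌈2 * ((m + 1 : ℕ) : ℝ) * (16 * c ^ 2 * Y)⌉₊ :=
    ⟨_, rfl⟩
  have hG : 2 * ((m + 1 : ℕ) : ℝ) * (16 * c ^ 2 * Y) ≤ G := by
    rw [hG0]
    exact Nat.le_ceil _
  rw [← hG0]
  obtain ⟨T0, hT0⟩ : ∃ T0 : ℝ, T0 = 16 * c ^ 2 * Y := ⟨_, rfl⟩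
  have hn0 : (1 : ℝ) ≤ ((m + 1 : ℕ) : ℝ) := by exact_mod_cast Nat.succ_le_succ (Nat.zero_le m)
  have hY1 : 1 ≤ Y := by
    rw [hY]
    nlinarith
  have hc2 : 1 ≤ c ^ 2 := one_le_pow₀ hc
  have hGpos : (0 : ℝ) < G := by
    have : (0 : ℝ) < 2 * ((m + 1 : ℕ) : ℝ) * (16 * c ^ 2 * Y) := by positivity
    linarith
  have hEn : 0 ≤ EnB c B (m + 1) := by
    unfold EnB
    have g1 : 0 ≤ Real.log (((m + 1 : ℕ) : ℝ) + 1) := Real.log_nonneg (by linarith)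
    have g2 : 0 ≤ Real.log (2 * c) := Real.log_nonneg (by linarith)
    have g3 : 0 ≤ Real.log B := Real.log_nonneg hB
    positivity
  obtain ⟨R, hR⟩ : ∃ R : ℝ, R = Real.sqrt (192 * c ^ 4 * (3 * EnB c B (m + 1) +
    ((m + 1 : ℕ) : ℝ))) := ⟨_, rfl⟩
  rw [← hR]
  have hc4 : 1 ≤ c ^ 4 := one_le_pow₀ hc
  have hRsq : R ^ 2 = 192 * c ^ 4 * (3 * EnB c B (m + 1) + ((m + 1 : ℕ) : ℝ)) := by
    rw [hR]
    exact Real.sq_sqrt (mul_nonneg (by positivity) (by linarith))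
  have hR1 : 1 ≤ R := by
    rw [hR, Real.le_sqrt' (by norm_num), one_pow]
    nlinarith
  obtain ⟨gi, hgi⟩ : ∃ gi : ℝ → ℕ, gi = fun β => ⌊(G : ℝ) * β⌋₊ := ⟨_, rfl⟩
  obtain ⟨q, hq⟩ : ∃ q : ℝ → Fin (m + 1) → ℤ, q = fun (β : ℝ) (i : Fin (m + 1)) =>
    cd T0 ((gi β : ℝ) / G) (s β) ((i : ℕ) + 1) := ⟨_, rfl⟩
  have hbt : ∀ β ∈ T, 1 ≤ (gi β : ℝ) / G ∧ (gi β : ℝ) / G ≤ β ∧
      β ≤ (gi β : ℝ) / G + 1 / G := by
    intro β hβ
    have hβ1 := (hT β hβ).1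
    have g0 : (0 : ℝ) ≤ G * β := by positivity
    have g1 : (gi β : ℝ) ≤ G * β := by
      rw [hgi]
      exact Nat.floor_le g0
    have g2 : (G : ℝ) * β < gi β + 1 := by
      rw [hgi]
      exact Nat.lt_floor_add_one _
    have g3 : G ≤ gi β := by
      rw [hgi]
      refine Nat.le_floor ?_
      nlinarith
    have g3' : (G : ℝ) ≤ gi β := by exact_mod_cast g3
    refine ⟨?_, ?_, ?_⟩
    · rw [le_div_iff₀ hGpos]
      linarith
    · rw [div_le_iff₀ hGpos]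
      linarith
    · rw [← add_div, le_div_iff₀ hGpos]
      linarith
  have hsum : ∀ β ∈ T, ∑ i : Fin (m + 1), (((i : ℕ) + 1 : ℕ) : ℝ) * (q β i : ℝ) ^ 2 ≤ R ^ 2 := by
    intro β hβ
    obtain ⟨b1, b2, b3⟩ := hbt β hβ
    have g1 := cd_sumB hc (hT β hβ) hY hG b1 b2 b3
    rw [hRsq]
    refine le_trans (le_of_eq ?_) g1
    rw [hq, ← hT0]
    obtain ⟨F, hF⟩ : ∃ F : ℕ → ℝ, F = fun k : ℕ => (k : ℝ) *
      (cd T0 ((gi β : ℝ) / G) (s β) k : ℝ) ^ 2 := ⟨_, rfl⟩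
    have g2 : ∑ i : Fin (m + 1), F ((i : ℕ) + 1) = ∑ k ∈ Icc 1 (m + 1), F k := by
      have g3 : Icc 1 (m + 1) = Ico 1 (m + 2) := by
        ext k
        rw [mem_Icc, mem_Ico]
        omega
      rw [Fin.sum_univ_eq_sum_range (fun i => F (i + 1)) (m + 1), g3,
        Finset.sum_Ico_eq_sum_range]
      refine Finset.sum_congr (by congr 1) fun i _ => ?_
      rw [add_comm]
    rw [hF] at g2
    exact g2
  have hinj : Set.InjOn (fun β => (gi β, q β)) (T : Set ℝ) := by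
    intro β hβ β' hβ' hEq
    rw [mem_coe] at hβ hβ'
    simp only [Prod.mk.injEq] at hEq
    obtain ⟨e1, e2⟩ := hEq
    obtain ⟨b1, b2, b3⟩ := hbt β hβ
    refine cd_injB hc (hT β hβ) (hT β' hβ') hY1 b1 b2 fun k hk1 hk => ?_
    have e3 := congrFun e2 ⟨k - 1, by omega⟩
    rw [hq] at e3
    simp only at e3
    rw [← e1, show k - 1 + 1 = k by omega] at e3
    rw [← hT0]
    exact e3
  have hcard : T.card ≤ (range (⌊(G : ℝ) * c⌋₊ + 1) ×ˢ T.image q).card := by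
    refine Finset.card_le_card_of_injOn (fun β => (gi β, q β)) ?_ hinj
    intro β hβ
    rw [mem_coe] at hβ
    rw [mem_coe, mem_product]
    refine ⟨?_, mem_image_of_mem q hβ⟩
    rw [mem_range, hgi]
    have g1 : (G : ℝ) * β ≤ G * c := mul_le_mul_of_nonneg_left (hT β hβ).2.1 hGpos.le
    exact Nat.lt_succ_of_le (Nat.floor_le_floor g1)
  rw [card_product, card_range] at hcard
  have hc1 : (T.card : ℝ) ≤ ((⌊(G : ℝ) * c⌋₊ : ℝ) + 1) * ((T.image q).card : ℝ) := by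
    exact_mod_cast hcard
  have hc2' : ((T.image q).card : ℝ) ≤ Real.exp (11 * R) := by
    refine card_le (m + 1) hR1 _ fun v hv => ?_
    rw [mem_image] at hv
    obtain ⟨β, hβ, rfl⟩ := hv
    exact hsum β hβ
  have hc3 : (⌊(G : ℝ) * c⌋₊ : ℝ) ≤ G * c := Nat.floor_le (by positivity)
  refine hc1.trans ?_
  exact mul_le_mul (by linarith) hc2' (by positivity) (by positivity)

end Pool.Agent.SalemCount
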