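import Pool.Agent.Lib.MP_1f45fc_nt_SP.Final
import Pool.Agent.Lib.MP_1f45fc_nt_SQ.MainB

set_option autoImplicit false

/-! MP_1f45fc_nt, sparsity of Perron numbers with a large Parry power: final statement. -/

namespace Pool.Agent.SalemCount

open Polynomial Finset

/-- the data of a number all of whose other conjugates are smaller than `β` and at most `ρ` -/
theorem exists_datB {c B ρ β : ℝ} (h1 : 1 < β) (hc : β ≤ c) (hint : IsIntegral ℤ β)
    (hper : ∀ z : ℂ, aeval z (minpoly ℤ β) = 0 → z ≠ (β : ℂ) → ‖z‖ < β)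
    (hρ : 1 ≤ ρ) (hρB : ρ ^ (minpoly ℤ β).natDegree ≤ B)
    (hconj : ∀ z : ℂ, aeval z (minpoly ℤ β) = 0 → z ≠ (β : ℂ) → ‖z‖ ≤ ρ) :
    ∃ (m : ℕ) (s : ℕ → ℤ), (minpoly ℤ β).natDegree = m + 1 ∧ DatB c B m β s := by
  classical
  obtain ⟨P, hP⟩ : ∃ P : ℤ[X], P = minpoly ℤ β := ⟨_, rfl⟩
  have hmonic : P.Monic := by
    rw [hP]
    exact minpoly.monic hint
  have hQ : P.map (algebraMap ℤ ℚ) = minpoly ℚ β := by
    rw [hP, minpoly.isIntegrallyClosed_eq_field_fractions' ℚ hint]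
  have hintQ : IsIntegral ℚ β := hint.tower_top
  have hsep : (P.map (Int.castRingHom ℂ)).Separable := by
    have g1 : (P.map (algebraMap ℤ ℚ)).Separable := by
      rw [hQ]
      exact (minpoly.irreducible hintQ).separable
    have g2 := g1.map (f := algebraMap ℚ ℂ)
    rw [Polynomial.map_map] at g2
    have g3 : (algebraMap ℚ ℂ).comp (algebraMap ℤ ℚ) = Int.castRingHom ℂ := Subsingleton.elim _ _
    rw [g3] at g2
    exact g2
  obtain ⟨F, hF⟩ : ∃ F : ℂ[X], F = P.map (Int.castRingHom ℂ) := ⟨_, rfl⟩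
  rw [← hF] at hsep
  have hFm : F.Monic := by
    rw [hF]
    exact hmonic.map _
  have hnod := nodup_roots hsep
  have hprod := (IsAlgClosed.splits F).eq_prod_roots_of_monic hFm
  obtain ⟨S, hS⟩ : ∃ S : Finset ℂ, S = F.roots.toFinset := ⟨_, rfl⟩
  have hSprod : F = ∏ w ∈ S, (X - C w) := by
    rw [Finset.prod_eq_multiset_prod, hS, Multiset.toFinset_val, hnod.dedup]
    exact hprod
  have hmem : ∀ w, w ∈ S ↔ aeval w (minpoly ℤ β) = 0 := by
    intro w
    rw [hS, Multiset.mem_toFinset, mem_roots hFm.ne_zero, IsRoot.def, hF, hP, eval_map,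
      aeval_def]
    have g3 : algebraMap ℤ ℂ = Int.castRingHom ℂ := Subsingleton.elim _ _
    rw [g3]
  have hβ : (β : ℂ) ∈ S := by
    rw [hmem]
    have h2 : aeval ((algebraMap ℝ ℂ) β) (minpoly ℤ β) = 0 := by
      rw [aeval_algebraMap_apply, minpoly.aeval, map_zero]
    exact h2
  obtain ⟨m, z, hcard, hinj, hz0, hzS, hzprod⟩ := exists_enum S β hβ
  have hroots : RootsOf P z := by
    unfold RootsOf
    rw [← hF, hSprod, hzprod]
  choose s hs using fun k => ps_int hroots k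
  have hdeg : (minpoly ℤ β).natDegree = m + 1 := by
    rw [← hP]
    exact natDegree_of_roots hroots
  have hne : ∀ i : Fin m, z i.succ ≠ (β : ℂ) := by
    intro i h
    rw [← hz0] at h
    exact absurd (hinj h) (Fin.succ_ne_zero i)
  rw [hdeg] at hρB
  exact ⟨m, s, hdeg, h1, hc, ρ, P, z, hρ, hρB, hroots, hinj, hz0,
    fun i => hconj _ ((hmem _).1 (hzS _)) (hne i),
    fun i => hper _ ((hmem _).1 (hzS _)) (hne i), hs⟩

/-- the constant -/
noncomputable def KcB (c B : ℝ) : ℝ :=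
  192 * c ^ 4 * (B ^ 2 * (29 + 36 * Real.log (2 * c) + 18 * Real.log B))

theorem bound_oneB {c B : ℝ} (hc : 1 ≤ c) (hB : 1 ≤ B) {n m : ℕ} (hn : 2 ≤ n) (hm : m + 1 ≤ n) :
    ((⌈2 * ((m + 1 : ℕ) : ℝ) * (16 * c ^ 2 * (((m + 1 : ℕ) : ℝ) * B))⌉₊ : ℝ) * c + 1) *
      Real.exp (11 * Real.sqrt (192 * c ^ 4 * (3 * EnB c B (m + 1) + ((m + 1 : ℕ) : ℝ)))) ≤
    34 * c ^ 3 * (n : ℝ) ^ 2 * B * Real.exp (11 * Real.sqrt (KcB c B * (n * Real.log n))) := by
  have hn2 : (2 : ℝ) ≤ n := by exact_mod_cast hn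
  have hmn : ((m + 1 : ℕ) : ℝ) ≤ n := by exact_mod_cast hm
  have hm1 : (1 : ℝ) ≤ ((m + 1 : ℕ) : ℝ) := by exact_mod_cast Nat.succ_le_succ (Nat.zero_le m)
  obtain ⟨x, hx⟩ : ∃ x : ℝ, x = ((m + 1 : ℕ) : ℝ) := ⟨_, rfl⟩
  have hc2 : 1 ≤ c ^ 2 := one_le_pow₀ hc
  have hc3 : 1 ≤ c ^ 3 := one_le_pow₀ hc
  have hn2' : 1 ≤ (n : ℝ) ^ 2 := one_le_pow₀ (by linarith)
  have hlogn : 1 / 2 < Real.log n := by
    have h1 := Real.log_le_log (by norm_num) hn2
    have h2 := log_two_gt'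
    linarith
  have hlogc : 0 ≤ Real.log (2 * c) := Real.log_nonneg (by linarith)
  have hlogB : 0 ≤ Real.log B := Real.log_nonneg hB
  refine mul_le_mul ?_ ?_ (Real.exp_pos _).le (by positivity)
  · rw [← hx] at hmn hm1 ⊢
    have h1 : (⌈2 * x * (16 * c ^ 2 * (x * B))⌉₊ : ℝ) ≤ 2 * x * (16 * c ^ 2 * (x * B)) + 1 :=
      (Nat.ceil_lt_add_one (by positivity)).le
    have h2 : x ^ 2 ≤ (n : ℝ) ^ 2 := pow_le_pow_left₀ (by linarith) hmn 2
    have h3 : (2 * x * (16 * c ^ 2 * (x * B)) + 1) * c + 1 = 32 * c ^ 3 * x ^ 2 * B + c + 1 := by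
      ring
    have h4 : (⌈2 * x * (16 * c ^ 2 * (x * B))⌉₊ : ℝ) * c + 1 ≤ 32 * c ^ 3 * x ^ 2 * B + c + 1 := by
      rw [← h3]
      have := mul_le_mul_of_nonneg_right h1 (by linarith : (0 : ℝ) ≤ c)
      linarith
    have h5 : 32 * c ^ 3 * x ^ 2 * B ≤ 32 * c ^ 3 * (n : ℝ) ^ 2 * B :=
      mul_le_mul_of_nonneg_right (mul_le_mul_of_nonneg_left h2 (by positivity)) (by linarith)
    have h6 : c ≤ c ^ 3 * (n : ℝ) ^ 2 * B := by
      have g1 : c ≤ c ^ 3 := le_self_pow₀ hc (by norm_num)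
      have g2 : c ^ 3 * 1 ≤ c ^ 3 * (n : ℝ) ^ 2 := mul_le_mul_of_nonneg_left hn2' (by positivity)
      have g3 : c ^ 3 * (n : ℝ) ^ 2 * 1 ≤ c ^ 3 * (n : ℝ) ^ 2 * B :=
        mul_le_mul_of_nonneg_left hB (by positivity)
      linarith
    have h7 : 1 ≤ c ^ 3 * (n : ℝ) ^ 2 * B := hc.trans h6
    linarith
  · refine Real.exp_le_exp.2 (mul_le_mul_of_nonneg_left (Real.sqrt_le_sqrt ?_) (by norm_num))
    unfold KcB
    have e0 : 192 * c ^ 4 * (B ^ 2 * (29 + 36 * Real.log (2 * c) + 18 * Real.log B)) *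
        (n * Real.log n) = 192 * c ^ 4 * (B ^ 2 * (29 + 36 * Real.log (2 * c) +
          18 * Real.log B) * (n * Real.log n)) := by ring
    rw [e0]
    refine mul_le_mul_of_nonneg_left ?_ (by positivity)
    obtain ⟨L, hL⟩ : ∃ L : ℝ, L = n * Real.log n := ⟨_, rfl⟩
    have h1 : (n : ℝ) ≤ 2 * L := by
      rw [hL]
      nlinarith
    have hL0 : 0 ≤ L := by linarith
    have h2 : EnB c B (m + 1) ≤ 3 * B ^ 2 * (2 * L + L + 4 * Real.log (2 * c) * L +
        2 * Real.log B * L) := by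
      unfold EnB
      rw [← hx] at hmn hm1 ⊢
      refine mul_le_mul_of_nonneg_left ?_ (by positivity : (0 : ℝ) ≤ 3 * B ^ 2)
      have g1 : Real.log (x + 1) ≤ 2 * Real.log n := by
        have e1 : 2 * Real.log n = Real.log ((n : ℝ) ^ 2) := by
          rw [Real.log_pow]
          push_cast
          ring
        rw [e1]
        refine Real.log_le_log (by linarith) ?_
        nlinarith
      have g2 : x * Real.log (x + 1) ≤ 2 * L := by
        rw [hL]
        have := mul_le_mul hmn g1 (Real.log_nonneg (by linarith)) (by linarith)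
        linarith
      have g3 : 2 * x * Real.log (2 * c) ≤ 4 * Real.log (2 * c) * L := by
        have e2 : 2 * x ≤ 2 * (2 * L) := by linarith
        have e3 := mul_le_mul_of_nonneg_right e2 hlogc
        linarith
      have g4 : x * Real.log B ≤ 2 * Real.log B * L := by
        have e2 : x ≤ 2 * L := by linarith
        have e3 := mul_le_mul_of_nonneg_right e2 hlogB
        linarith
      linarith
    rw [← hL]
    have hB2 : 1 ≤ B ^ 2 := one_le_pow₀ hB
    have h3 : (n : ℝ) ≤ B ^ 2 * (2 * L) := by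
      have := le_mul_of_one_le_left (by linarith : (0 : ℝ) ≤ 2 * L) hB2
      linarith
    linarith

theorem bound_twoB {c B : ℝ} (hc : 1 ≤ c) (hB : 1 ≤ B) {n : ℕ} (hn : 2 ≤ n) :
    (n : ℝ) * (34 * c ^ 3 * (n : ℝ) ^ 2 * B *
      Real.exp (11 * Real.sqrt (KcB c B * (n * Real.log n)))) ≤
      Real.exp ((Real.log (34 * c ^ 3) + Real.log B + 3 + 11 * Real.sqrt (KcB c B)) *
        Real.sqrt (n * Real.log n)) := by
  have hn2 : (2 : ℝ) ≤ n := by exact_mod_cast hn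
  have hc3 : 1 ≤ c ^ 3 := one_le_pow₀ hc
  have hlogc : 0 ≤ Real.log (2 * c) := Real.log_nonneg (by linarith)
  have hlogB : 0 ≤ Real.log B := Real.log_nonneg hB
  have hK : 0 ≤ KcB c B := by
    unfold KcB
    positivity
  have hlogn : 1 / 2 < Real.log n := by
    have h1 := Real.log_le_log (by norm_num) hn2
    have h2 := log_two_gt'
    linarith
  have hL1 : 1 ≤ (n : ℝ) * Real.log n := by nlinarith
  have hs1 : 1 ≤ Real.sqrt (n * Real.log n) := by
    rw [Real.le_sqrt' (by norm_num), one_pow]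
    exact hL1
  have hlog34 : 0 ≤ Real.log (34 * c ^ 3) := Real.log_nonneg (by linarith)
  have hlogs : Real.log n ≤ Real.sqrt (n * Real.log n) := by
    refine Real.le_sqrt_of_sq_le ?_
    have h1 : Real.log n ≤ n := (Real.log_le_sub_one_of_pos (by linarith)).trans (by linarith)
    nlinarith
  rw [Real.sqrt_mul hK]
  have h1 : (n : ℝ) * (34 * c ^ 3 * (n : ℝ) ^ 2 * B *
      Real.exp (11 * (Real.sqrt (KcB c B) * Real.sqrt (n * Real.log n)))) =
      Real.exp (Real.log (34 * c ^ 3) + Real.log B + 3 * Real.log n +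
        11 * (Real.sqrt (KcB c B) * Real.sqrt (n * Real.log n))) := by
    rw [Real.exp_add, Real.exp_add, Real.exp_add, Real.exp_log (by positivity),
      Real.exp_log (by linarith)]
    have h2 : Real.exp (3 * Real.log n) = (n : ℝ) ^ 3 := by
      have h3 : (3 : ℝ) * Real.log n = Real.log ((n : ℝ) ^ 3) := by
        rw [Real.log_pow]
        push_cast
        ring
      rw [h3, Real.exp_log (by positivity)]
    rw [h2]
    ring
  rw [h1]
  refine Real.exp_le_exp.2 ?_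
  have h4 : Real.log (34 * c ^ 3) ≤ Real.log (34 * c ^ 3) * Real.sqrt (n * Real.log n) :=
    le_mul_of_one_le_right hlog34 hs1
  have h5 : Real.log B ≤ Real.log B * Real.sqrt (n * Real.log n) :=
    le_mul_of_one_le_right hlogB hs1
  nlinarith

/-- the final constant -/
theorem bound_threeB {c K : ℝ} (hc : 1 ≤ c) (hK : 1 ≤ K) :
    Real.log (34 * c ^ 3) + Real.log ((2 : ℝ) ^ K) + 3 + 11 * Real.sqrt (KcB c ((2 : ℝ) ^ K)) ≤
      ((Real.log (34 * c ^ 3) + 4 + 11 * Real.sqrt (192 * c ^ 4 * (47 + 36 * Real.log (2 * c)))) *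
        Real.exp 2) ^ K := by
  have hc3 : 1 ≤ c ^ 3 := one_le_pow₀ hc
  have hlogc : 0 ≤ Real.log (2 * c) := Real.log_nonneg (by linarith)
  have hlog34 : 0 ≤ Real.log (34 * c ^ 3) := Real.log_nonneg (by linarith)
  obtain ⟨a, ha⟩ : ∃ a : ℝ, a = Real.log (34 * c ^ 3) := ⟨_, rfl⟩
  obtain ⟨b, hb⟩ : ∃ b : ℝ, b = Real.sqrt (192 * c ^ 4 * (47 + 36 * Real.log (2 * c))) := ⟨_, rfl⟩
  have hb0 : 0 ≤ b := by
    rw [hb]
    exact Real.sqrt_nonneg _
  have ha0 : 0 ≤ a := by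
    rw [ha]
    exact hlog34
  have hlog2 : Real.log 2 ≤ 1 := by
    have := Real.log_two_lt_d9
    linarith
  have hlog20 : 0 ≤ Real.log 2 := Real.log_nonneg (by norm_num)
  have hlogB : Real.log ((2 : ℝ) ^ K) ≤ K := by
    rw [Real.log_rpow (by norm_num)]
    nlinarith
  have hB : (2 : ℝ) ^ K ≤ Real.exp K := by
    rw [Real.rpow_def_of_pos (by norm_num)]
    refine Real.exp_le_exp.2 ?_
    nlinarith
  have hB0 : (0 : ℝ) < (2 : ℝ) ^ K := by positivity
  have hKe : K ≤ Real.exp K := by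
    have := Real.add_one_le_exp K
    linarith
  have h1e : 1 ≤ Real.exp K := by linarith
  have hsq : Real.sqrt (KcB c ((2 : ℝ) ^ K)) ≤ Real.exp K * (b * K) := by
    have h1 : KcB c ((2 : ℝ) ^ K) ≤ ((2 : ℝ) ^ K) ^ 2 *
        ((192 * c ^ 4 * (47 + 36 * Real.log (2 * c))) * K ^ 2) := by
      unfold KcB
      have h2 : 29 + 36 * Real.log (2 * c) + 18 * Real.log ((2 : ℝ) ^ K) ≤
          (47 + 36 * Real.log (2 * c)) * K ^ 2 := by
        have g1 : K ≤ K ^ 2 := by nlinarith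
        have g2 : 1 ≤ K ^ 2 := by nlinarith
        have g3 : Real.log (2 * c) ≤ Real.log (2 * c) * K ^ 2 := le_mul_of_one_le_right hlogc g2
        nlinarith
      have h3 := mul_le_mul_of_nonneg_left h2 (by positivity : 0 ≤ 192 * c ^ 4 *
        ((2 : ℝ) ^ K) ^ 2)
      linarith
    refine (Real.sqrt_le_sqrt h1).trans ?_
    rw [Real.sqrt_mul (by positivity), Real.sqrt_sq hB0.le, Real.sqrt_mul (by positivity),
      Real.sqrt_sq (by linarith), ← hb]
    exact mul_le_mul_of_nonneg_right hB (by positivity)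
  rw [← ha, ← hb]
  have hD : 1 ≤ a + 4 + 11 * b := by linarith
  have hfin : a + Real.log ((2 : ℝ) ^ K) + 3 + 11 * Real.sqrt (KcB c ((2 : ℝ) ^ K)) ≤
      (a + 4 + 11 * b) * (Real.exp K * Real.exp K) := by
    have g1 : Real.exp K * (b * K) ≤ Real.exp K * (b * Real.exp K) :=
      mul_le_mul_of_nonneg_left (mul_le_mul_of_nonneg_left hKe hb0) (Real.exp_pos K).le
    have g2 : 1 ≤ Real.exp K * Real.exp K := by nlinarith
    have g3 : K ≤ Real.exp K * Real.exp K := by nlinarith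
    have g4 : a ≤ a * (Real.exp K * Real.exp K) := le_mul_of_one_le_right ha0 g2
    nlinarith
  refine hfin.trans ?_
  rw [Real.mul_rpow (by linarith) (Real.exp_pos 2).le]
  have h5 : a + 4 + 11 * b ≤ (a + 4 + 11 * b) ^ K := by
    have := Real.rpow_le_rpow_of_exponent_le hD hK
    rw [Real.rpow_one] at this
    exact this
  have h6 : Real.exp K * Real.exp K = Real.exp 2 ^ K := by
    rw [← Real.exp_add, ← Real.exp_mul]
    congr 1
    ring
  rw [h6]
  exact mul_le_mul_of_nonneg_right h5 (by positivity)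

/-- the final theorem -/
theorem mainB (c : ℝ) : ∃ C : ℝ, ∀ n : ℕ, 2 ≤ n → ∀ K : ℝ, 1 ≤ K → ∀ S : Set ℝ,
    (∀ β ∈ S, 1 < β ∧ β ≤ c ∧ IsIntegral ℤ β ∧ (minpoly ℤ β).natDegree ≤ n ∧
      (∀ z : ℂ, aeval z (minpoly ℤ β) = 0 → z ≠ (β : ℂ) → ‖z‖ < β) ∧
      ∀ z : ℂ, aeval z (minpoly ℤ β) = 0 → z ≠ (β : ℂ) → ‖z‖ ≤ (2 : ℝ) ^ (K / n)) →
    S.Finite ∧ (S.ncard : ℝ) ≤ Real.exp (C ^ K * Real.sqrt (n * Real.log n)) := by
  classical
  obtain ⟨c', hc'⟩ : ∃ c' : ℝ, c' = max c 1 := ⟨_, rfl⟩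
  have hc1 : 1 ≤ c' := by
    rw [hc']
    exact le_max_right _ _
  refine ⟨(Real.log (34 * c' ^ 3) + 4 + 11 * Real.sqrt (192 * c' ^ 4 *
    (47 + 36 * Real.log (2 * c')))) * Real.exp 2, fun n hn K hK S hS => ?_⟩
  obtain ⟨C, hC⟩ : ∃ C : ℝ, C = (Real.log (34 * c' ^ 3) + 4 + 11 * Real.sqrt (192 * c' ^ 4 *
    (47 + 36 * Real.log (2 * c')))) * Real.exp 2 := ⟨_, rfl⟩
  rw [← hC]
  obtain ⟨B, hB⟩ : ∃ B : ℝ, B = (2 : ℝ) ^ K := ⟨_, rfl⟩
  have hB1 : 1 ≤ B := by
    rw [hB]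
    exact Real.one_le_rpow (by norm_num) (by linarith)
  have hfin : ∀ T : Finset ℝ, (T : Set ℝ) ⊆ S → (T.card : ℝ) ≤
      Real.exp (C ^ K * Real.sqrt (n * Real.log n)) := by
    intro T hT
    have hdat : ∀ β ∈ T, ∃ (m : ℕ) (s : ℕ → ℤ), (minpoly ℤ β).natDegree = m + 1 ∧
        DatB c' B m β s := by
      intro β hβ
      obtain ⟨g1, g2, g3, g4, g5, g6⟩ := hS β (hT hβ)
      have hn0 : (2 : ℝ) ≤ n := by exact_mod_cast hn
      obtain ⟨ρ, hρ⟩ : ∃ ρ : ℝ, ρ = (2 : ℝ) ^ (K / n) := ⟨_, rfl⟩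
      have hρ1 : 1 ≤ ρ := by
        rw [hρ]
        exact Real.one_le_rpow (by norm_num) (by positivity)
      refine exists_datB (ρ := ρ) g1 (by rw [hc']; exact g2.trans (le_max_left _ _)) g3 g5 hρ1
        ?_ fun z hz hzβ => ?_
      · have h1 : ρ ^ (minpoly ℤ β).natDegree ≤ ρ ^ n := pow_le_pow_right₀ hρ1 g4
        refine h1.trans ?_
        rw [hρ, hB, ← Real.rpow_natCast, ← Real.rpow_mul (by norm_num),
          div_mul_cancel₀ K (by linarith : (n : ℝ) ≠ 0)]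
      · rw [hρ]
        exact g6 z hz hzβ
    have hex : ∃ s : ℝ → ℕ → ℤ, ∀ β ∈ T, DatB c' B ((minpoly ℤ β).natDegree - 1) β (s β) := by
      have h1 : ∀ β : ℝ, ∃ s : ℕ → ℤ, β ∈ T → DatB c' B ((minpoly ℤ β).natDegree - 1) β s := by
        intro β
        by_cases hβ : β ∈ T
        · obtain ⟨m, s, hm, hs⟩ := hdat β hβ
          refine ⟨s, fun _ => ?_⟩
          rw [hm, Nat.add_sub_cancel]
          exact hs
        · exact ⟨0, fun h => absurd h hβ⟩
      choose s hs using h1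
      exact ⟨s, fun β hβ => hs β hβ⟩
    obtain ⟨s, hs⟩ := hex
    have hmaps : ∀ β ∈ T, (minpoly ℤ β).natDegree - 1 ∈ Finset.range n := by
      intro β hβ
      obtain ⟨m, _, hm, _⟩ := hdat β hβ
      have h2 := (hS β (hT hβ)).2.2.2.1
      rw [Finset.mem_range]
      omega
    have hcard := Finset.card_eq_sum_card_fiberwise hmaps
    have hsum : (T.card : ℝ) ≤ ∑ _m ∈ Finset.range n, (34 * c' ^ 3 * (n : ℝ) ^ 2 * B *
        Real.exp (11 * Real.sqrt (KcB c' B * (n * Real.log n)))) := by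
      rw [hcard]
      push_cast
      refine Finset.sum_le_sum fun m hm => ?_
      rw [Finset.mem_range] at hm
      refine le_trans (card_datB hc1 hB1 m _ s fun β hβ => ?_) (bound_oneB hc1 hB1 hn hm)
      rw [Finset.mem_filter] at hβ
      have h3 := hs β hβ.1
      rw [hβ.2] at h3
      exact h3
    rw [Finset.sum_const, Finset.card_range, nsmul_eq_mul] at hsum
    refine (hsum.trans (bound_twoB hc1 hB1 hn)).trans (Real.exp_le_exp.2 ?_)
    refine mul_le_mul_of_nonneg_right ?_ (Real.sqrt_nonneg _)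
    rw [hB, hC]
    exact bound_threeB hc1 hK
  have hSfin : S.Finite := by
    by_contra hinf
    obtain ⟨N, hN⟩ := exists_nat_gt (Real.exp (C ^ K * Real.sqrt (n * Real.log n)))
    obtain ⟨T, hT, hTN⟩ := (show S.Infinite from hinf).exists_subset_card_eq N
    have h4 := hfin T hT
    rw [hTN] at h4
    linarith
  refine ⟨hSfin, ?_⟩
  rw [Set.ncard_eq_toFinset_card S hSfin]
  exact hfin _ (by rw [Set.Finite.coe_toFinset])

end Pool.Agent.SalemCount
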